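import Mathlib
import Pool.Agent.R656.VRegDefs
import Pool.Agent.R656.VRegKoszul
import Pool.Agent.R656.VRegGen
import Pool.Agent.R656.VRegPoly
import Pool.Agent.R656.VRegRing
import Pool.Agent.R656.VRegGrade
import Pool.Agent.R656.VRegV
import Pool.Agent.R656.VRegReg
import Pool.Agent.R656.VRegFin

namespace Pool.Agent.Results.MP_72aa19_al.StandardGradedVNumber

open R656V

/-- A much weaker assertion than Q1: for every standard graded `ℚ`-algebra `R` (`R_0 = ℚ`, `R`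
generated as a `ℚ`-algebra by finitely many elements and by `R_1`) and every homogeneous ideal `J`
with proper powers and Noetherian Rees algebra, **some** power `J ^ k`, `k ≥ 1`, satisfies
`v(J ^ k) ≤ reg(J ^ k)`. -/
def StandardGradedWeakForm : Prop :=
  ∀ (R : Type) [CommRing R] [Nontrivial R] [Algebra ℚ R] [Algebra.FiniteType ℚ R]
    (𝒜 : ℕ → Submodule ℚ R) [GradedAlgebra 𝒜] (m : Ideal R),
    (∀ r ∈ 𝒜 0, ∃ a : ℚ, algebraMap ℚ R a = r) →
    Algebra.adjoin ℚ (𝒜 1 : Set R) = ⊤ →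
    IsMaxGraded 𝒜 m → Infinite (R ⧸ m) →
    ∀ (s : ℕ) (x : Fin s → R) (e : Fin s → ℕ), IsGenSeq 𝒜 x e →
    ∀ (J : Ideal R) (hJ : IsGradedFiltration 𝒜 (fun k => J ^ k)),
      (∀ k : ℕ, 0 < k → J ^ k ≠ ⊤) →
      IsNoetherianRing (rees hJ) →
      ∃ k : ℕ, 0 < k ∧ ((vNum 𝒜 (J ^ k) : ℝ) : EReal) ≤ reg 𝒜 x e (J ^ k)

/-- Q1 has a negative answer; moreover there are a standard graded `ℚ`-algebra `R` and a homogeneous
ideal `J` with `v(J ^ k) > reg(J ^ k)` for all `k ≥ 1`. -/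
theorem result : ¬ Question1 ∧ ¬ StandardGradedWeakForm := by
  have hmax := isMaxGraded_irrelevant gr gr_zero
  have hinf := infinite_residue (K := ℚ) _ hmax.maximal
  have hrees := rees_noetherian' (Ideal.span {ww}) isGradedFiltration_ww
  have hne : ∀ k : ℕ, 0 < k → (Ideal.span {ww}) ^ k ≠ ⊤ := by
    intro k hk h
    exact span_ww_ne_top (top_le_iff.1 (h ▸ Ideal.pow_le_self (by omega)))
  constructor
  · intro hQ
    obtain ⟨k₀, hk⟩ := hQ ℚ RR gr _ hmax hinf 4 xx (e1 4) isGenSeq_xx _ isGradedFiltration_ww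
      hne hrees
    exact absurd (hk (k₀ + 1) (Nat.le_succ _))
      (not_le.mpr (reg_lt_vNum (k₀ + 1) (Nat.succ_pos _)))
  · intro hQ
    obtain ⟨k, hk, hk'⟩ := hQ RR gr _ gr_zero adjoin_gr_one hmax hinf 4 xx (e1 4) isGenSeq_xx
      (Ideal.span {ww}) isGradedFiltration_ww hne hrees
    exact absurd hk' (not_le.mpr (reg_lt_vNum k hk))

end Pool.Agent.Results.MP_72aa19_al.StandardGradedVNumber
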