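import Pool.Agent.R689.VReg7

namespace Pool.Agent.Results.MP_72aa19_al.VNumberExceedsReg

open R689VR

/-- Negative answer to Q1 of MP_72aa19: a standard graded ring `R`, finitely generated over the
Noetherian ring `V = ℚ⟦u⟧`, with unique maximal graded ideal `𝔪` and infinite residue field, and a
Noetherian graded filtration `I` of `R` with `reg(I_[k]) < v(I_[k])` for all `k ≥ 1`. -/
theorem result :
    ∃ (V R : Type) (_ : CommRing V) (_ : IsNoetherianRing V) (_ : CommRing R) (_ : Algebra V R)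
      (_ : Algebra.FiniteType V R) (_ : IsNoetherianRing R)
      (𝒜 : ℕ → Submodule V R) (_ : GradedAlgebra 𝒜) (𝔪 : Ideal R) (y : Fin 3 → R),
      (𝔪.IsMaximal ∧ 𝔪.IsHomogeneous 𝒜 ∧
        (∀ J : Ideal R, J.IsHomogeneous 𝒜 → J ≠ ⊤ → J ≤ 𝔪) ∧ Infinite (R ⧸ 𝔪)) ∧
      (∀ j, y j ∈ 𝒜 1) ∧
      Ideal.span (Set.range y) = (HomogeneousIdeal.irrelevant 𝒜).toIdeal ∧
      ∃ (I : ℕ → Ideal R) (h : IsGradedFiltration 𝒜 I),
        IsNoetherianRing (ReesRing 𝒜 I h) ∧
        ∀ k, 1 ≤ k → I k ≠ ⊤ ∧ I k ≠ ⊥ ∧ reg 𝒜 (I k) y (fun _ => 1) ≤ 0 ∧ 1 ≤ vnum 𝒜 (I k) ∧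
          reg 𝒜 (I k) y (fun _ => 1) < vnum 𝒜 (I k) := by
  refine ⟨V0, R0, inferInstance, inferInstance, inferInstance, inferInstance, R0_ft, R0_noeth, AA,
    inferInstance, RingHom.ker eps, y0, ⟨max_ideal, max_homog, max_greatest, residue_infinite⟩,
    y0_mem, irr, II, II_filtration, rees_noeth, ?_⟩
  intro k hk
  refine ⟨?_, ?_, reg_II k, vnum_II k hk, ?_⟩
  · intro h
    have h1 : (1 : R0) ∈ II k := by rw [h]; trivial
    obtain ⟨s, hs⟩ := mem_II.mp h1
    have h2 := congrArg eps hs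
    rw [← U0_pow_mul, map_mul, map_pow, map_one] at h2
    have h3 : eps U0 = 0 := by
      rw [eps_apply]
      change PowerSeries.constantCoeff (MvPolynomial.constantCoeff (MvPolynomial.C u0)) = 0
      rw [MvPolynomial.constantCoeff_C]
      exact PowerSeries.constantCoeff_X
    rw [h3, zero_pow (by omega), zero_mul] at h2
    exact zero_ne_one h2
  · intro h
    have h1 : (u0 ^ k) • (1 : R0) ∈ II k := mem_II.mpr ⟨1, rfl⟩
    rw [h, Ideal.mem_bot] at h1
    exact one_ne_zero (upow_inj_R k 1 h1)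
  · refine lt_of_le_of_lt (reg_II k) (lt_of_lt_of_le ?_ (vnum_II k hk))
    exact_mod_cast zero_lt_one (α := ℝ)

end Pool.Agent.Results.MP_72aa19_al.VNumberExceedsReg
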